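import Pool.Agent.W203.WS.Stm

set_option autoImplicit false

open MeasureTheory Finset

namespace Pool.Agent.W203.WS

namespace SQ621

lemma e_eq (x : ℝ) : e x = Complex.exp (((2 * Real.pi * x : ℝ) : ℂ) * Complex.I) := by
  unfold e; congr 1; push_cast; ring

lemma e_re (x : ℝ) : (e x).re = Real.cos (2 * Real.pi * x) := by
  rw [e_eq, Complex.exp_ofReal_mul_I_re]

lemma e_im (x : ℝ) : (e x).im = Real.sin (2 * Real.pi * x) := by
  rw [e_eq, Complex.exp_ofReal_mul_I_im]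

lemma e_cont : Continuous e := by
  unfold e; fun_prop

lemma e_re_neg (x : ℝ) : (e (-x)).re = (e x).re := by
  rw [e_re, e_re, mul_neg, Real.cos_neg]

lemma e_zero_re : (e 0).re = 1 := by rw [e_re]; simp

lemma norm_sq_sum (s : Finset ℕ) (f : ℕ → ℝ) :
    ‖∑ x ∈ s, e (f x)‖ ^ 2 = ∑ x ∈ s, ∑ y ∈ s, (e (f x - f y)).re := by
  have h1 : ‖∑ x ∈ s, e (f x)‖ ^ 2
      = (∑ x ∈ s, Real.cos (2 * Real.pi * f x)) ^ 2 + (∑ x ∈ s, Real.sin (2 * Real.pi * f x)) ^ 2 := by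
    rw [← Complex.normSq_eq_norm_sq, Complex.normSq_apply, Complex.re_sum, Complex.im_sum]
    simp_rw [e_re, e_im]
    ring
  rw [h1, sq, sq, Finset.sum_mul_sum, Finset.sum_mul_sum, ← Finset.sum_add_distrib]
  apply Finset.sum_congr rfl
  intro x _
  rw [← Finset.sum_add_distrib]
  apply Finset.sum_congr rfl
  intro y _
  rw [e_re, mul_sub, Real.cos_sub]

lemma double_sum (F : ℕ → ℕ → ℝ) (hs : ∀ x y, F x y = F y x) (P N : ℕ) :
    ∑ x ∈ Ico P N, ∑ y ∈ Ico P N, F x y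
      = ∑ x ∈ Ico P N, F x x + 2 * ∑ x ∈ Ico P N, ∑ y ∈ Ico P x, F x y := by
  have h1 : ∀ x ∈ Ico P N, ∑ y ∈ Ico P N, F x y
      = F x x + ∑ y ∈ Ico P x, F x y + ∑ y ∈ Ico (x + 1) N, F x y := by
    intro x hx
    rw [mem_Ico] at hx
    rw [← Finset.sum_Ico_consecutive _ hx.1 hx.2.le, Finset.sum_eq_sum_Ico_succ_bot hx.2]
    ring
  rw [Finset.sum_congr rfl h1, Finset.sum_add_distrib, Finset.sum_add_distrib]
  have h2 : ∑ x ∈ Ico P N, ∑ y ∈ Ico (x + 1) N, F x y = ∑ x ∈ Ico P N, ∑ y ∈ Ico P x, F x y := by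
    rw [Finset.sum_sigma', Finset.sum_sigma']
    refine Finset.sum_nbij' (fun p => ⟨p.2, p.1⟩) (fun p => ⟨p.2, p.1⟩) ?_ ?_ ?_ ?_ ?_
    · rintro ⟨a, b⟩ h
      simp only [mem_sigma, mem_Ico] at h ⊢
      omega
    · rintro ⟨a, b⟩ h
      simp only [mem_sigma, mem_Ico] at h ⊢
      omega
    · rintro ⟨a, b⟩ _; rfl
    · rintro ⟨a, b⟩ _; rfl
    · rintro ⟨a, b⟩ _; exact hs _ _
  rw [h2]; ring

lemma group_sum (F : ℕ → ℕ → ℝ) (P N : ℕ) :
    ∑ x ∈ Ico P N, ∑ y ∈ Ico P x, F x y = ∑ h ∈ Ico 1 (N - P), ∑ y ∈ Ico P (N - h), F (y + h) y := by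
  rw [Finset.sum_sigma', Finset.sum_sigma']
  refine Finset.sum_nbij' (fun p => ⟨p.1 - p.2, p.2⟩) (fun p => ⟨p.2 + p.1, p.2⟩) ?_ ?_ ?_ ?_ ?_
  · rintro ⟨a, b⟩ h
    simp only [mem_sigma, mem_Ico] at h ⊢
    omega
  · rintro ⟨a, b⟩ h
    simp only [mem_sigma, mem_Ico] at h ⊢
    omega
  · rintro ⟨a, b⟩ h
    simp only [mem_sigma, mem_Ico] at h ⊢
    have : b + (a - b) = a := by omega
    rw [this]
  · rintro ⟨a, b⟩ h
    simp only [mem_sigma, mem_Ico] at h ⊢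
    have : b + a - b = a := by omega
    rw [this]
  · rintro ⟨a, b⟩ h
    simp only [mem_sigma, mem_Ico] at h ⊢
    have : b + (a - b) = a := by omega
    rw [this]

lemma re_int (f : ℝ → ℂ) (hf : Continuous f) (a b : ℝ) :
    ∫ x in a..b, (f x).re = (∫ x in a..b, f x).re := by
  have := ContinuousLinearMap.intervalIntegral_comp_comm (μ := volume) Complex.reCLM
    (hf.intervalIntegrable a b)
  simpa using this

lemma pow_add_mul_le_add_pow621 (m : ℕ) {u h : ℝ} (hu : 0 ≤ u) (hh : 0 ≤ h) :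
    u ^ (m + 1) + (m + 1) * h * u ^ m ≤ (u + h) ^ (m + 1) := by
  induction m with
  | zero => simp
  | succ m ih =>
    have h1 : (u + h) ^ (m + 1 + 1) = (u + h) ^ (m + 1) * (u + h) := pow_succ _ _
    rw [h1]
    have h2 : (u ^ (m + 1) + (m + 1) * h * u ^ m) * (u + h) ≤ (u + h) ^ (m + 1) * (u + h) := by
      gcongr
    refine le_trans ?_ h2
    push_cast
    have h3 : 0 ≤ (m + 1) * h * h * u ^ m := by positivity
    have e1 : u ^ (m + 1 + 1) = u ^ m * u * u := by ring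
    have e2 : u ^ (m + 1) = u ^ m * u := by ring
    rw [e1, e2]
    nlinarith [h3]

/-- one difference `h` -/
lemma dpow_add621 (n : ℕ) (c u : ℝ) :
    HasDerivAt (fun u : ℝ => (u + c) ^ n) (n * (u + c) ^ (n - 1)) u := by
  have h1 : HasDerivAt (fun u : ℝ => u + c) 1 u := (hasDerivAt_id u).add_const c
  have h2 := (hasDerivAt_pow n (u + c)).comp u h1
  rw [mul_one] at h2
  exact h2

lemma one_h (hF : S_FDT) (k P h : ℕ) (t : ℝ) (hk : 2 ≤ k) (hP : 1 ≤ P) (ht : 0 < t) (hh : 1 ≤ h)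
    (hh2 : h ≤ 3 * P) :
    ∑ y ∈ Ico P (4 * P - h), ∫ θ in (0 : ℝ)..1,
      (e (t * (((y + h : ℕ) : ℝ) + θ) ^ k - t * ((y : ℝ) + θ) ^ k)).re
      ≤ 1 / (2 * t * h * (P : ℝ) ^ (k - 2)) := by
  set φ : ℝ → ℝ := fun u => t * (u + h) ^ k - t * u ^ k with hφ
  have hφc : Continuous φ := by rw [hφ]; fun_prop
  have h1 : ∀ y : ℕ, ∫ θ in (0 : ℝ)..1,
      (e (t * (((y + h : ℕ) : ℝ) + θ) ^ k - t * ((y : ℝ) + θ) ^ k)).re
      = ∫ u in (y : ℝ)..((y + 1 : ℕ) : ℝ), (e (φ u)).re := by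
    intro y
    have := intervalIntegral.integral_comp_add_left (a := 0) (b := 1)
      (fun u => (e (φ u)).re) (y : ℝ)
    rw [add_zero] at this
    push_cast
    rw [← this]
    apply intervalIntegral.integral_congr
    intro θ _
    simp only [hφ]
    congr 3
    ring
  have hle : P ≤ 4 * P - h := by omega
  rw [Finset.sum_congr rfl (fun y _ => h1 y)]
  have h2 := intervalIntegral.sum_integral_adjacent_intervals_Ico (μ := volume)
    (f := fun u => (e (φ u)).re) (a := fun n : ℕ => (n : ℝ)) hle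
    (fun n _ => ((Complex.continuous_re.comp (e_cont.comp hφc)).intervalIntegrable _ _))
  have h3 := re_int (fun u => e (φ u)) (e_cont.comp hφc) (P : ℝ) ((4 * P - h : ℕ) : ℝ)
  rw [h2, h3]
  refine le_trans (Complex.re_le_norm _) ?_
  have hPr : (1 : ℝ) ≤ P := by exact_mod_cast hP
  have hhr : (1 : ℝ) ≤ h := by exact_mod_cast hh
  have hμ : 0 < 2 * t * h * (P : ℝ) ^ (k - 2) := by positivity
  refine hF φ (fun u => t * (k * (u + h) ^ (k - 1)) - t * (k * u ^ (k - 1)))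
    (fun u => t * (k * ((k - 1 : ℕ) * (u + h) ^ (k - 1 - 1))) - t * (k * ((k - 1 : ℕ) * u ^ (k - 1 - 1))))
    P ((4 * P - h : ℕ) : ℝ) _ (by exact_mod_cast hle) hμ ?_ ?_ ?_ ?_ ?_
  · intro u _
    have a1 : HasDerivAt (fun u : ℝ => (u + h) ^ k) (k * (u + h) ^ (k - 1)) u :=
      dpow_add621 k h u
    have a2 : HasDerivAt (fun u : ℝ => u ^ k) (k * u ^ (k - 1)) u := hasDerivAt_pow k u
    exact (a1.const_mul t).sub (a2.const_mul t)
  · intro u _
    have a1 : HasDerivAt (fun u : ℝ => (u + h) ^ (k - 1)) ((k - 1 : ℕ) * (u + h) ^ (k - 1 - 1)) u :=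
      dpow_add621 (k - 1) h u
    have a2 : HasDerivAt (fun u : ℝ => u ^ (k - 1)) ((k - 1 : ℕ) * u ^ (k - 1 - 1)) u :=
      hasDerivAt_pow (k - 1) u
    exact ((a1.const_mul (k : ℝ)).const_mul t).sub ((a2.const_mul (k : ℝ)).const_mul t)
  · fun_prop
  · intro u hu
    have hu0 : (P : ℝ) ≤ u := hu.1
    have hu1 : (0 : ℝ) ≤ u := by linarith
    obtain ⟨m, rfl⟩ : ∃ m, k = m + 2 := ⟨k - 2, by omega⟩
    simp only [Nat.add_sub_cancel, show m + 2 - 1 = m + 1 by omega]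
    -- (u+h)^(m+1) - u^(m+1) ≥ (m+1) h u^m ≥ (m+1) h P^m
    have b1 : u ^ (m + 1) + (m + 1) * h * u ^ m ≤ (u + h) ^ (m + 1) := by
      have := pow_add_mul_le_add_pow621 m hu1 (by linarith : (0:ℝ) ≤ h)
      exact this
    have b2 : (P : ℝ) ^ m ≤ u ^ m := pow_le_pow_left₀ (by linarith) hu0 m
    have b3 : t * ((m + 2 : ℕ) * (u + h) ^ (m + 1)) - t * ((m + 2 : ℕ) * u ^ (m + 1))
        = t * ((m + 2 : ℕ) * ((u + h) ^ (m + 1) - u ^ (m + 1))) := by ring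
    rw [b3]
    have b4 : (m + 1) * h * (P : ℝ) ^ m ≤ (u + h) ^ (m + 1) - u ^ (m + 1) := by
      have : (m + 1) * h * (P : ℝ) ^ m ≤ (m + 1) * h * u ^ m := by gcongr
      linarith
    calc 2 * t * h * (P : ℝ) ^ m = t * (2 * (1 * h * (P : ℝ) ^ m)) := by ring
      _ ≤ t * ((m + 2 : ℕ) * ((m + 1) * h * (P : ℝ) ^ m)) := by
        have c1 : (2 : ℝ) ≤ ((m + 2 : ℕ) : ℝ) := by push_cast; linarith [Nat.cast_nonneg (α := ℝ) m]
        have c2 : (1 : ℝ) ≤ (m : ℝ) + 1 := by linarith [Nat.cast_nonneg (α := ℝ) m]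
        gcongr
      _ ≤ _ := by gcongr
  · intro u hu
    have hu0 : (P : ℝ) ≤ u := hu.1
    have hu1 : (0 : ℝ) ≤ u := by linarith
    have : u ^ (k - 1 - 1) ≤ (u + h) ^ (k - 1 - 1) := pow_le_pow_left₀ hu1 (by linarith) _
    have : t * (k * ((k - 1 : ℕ) * u ^ (k - 1 - 1))) ≤ t * (k * ((k - 1 : ℕ) * (u + h) ^ (k - 1 - 1))) := by
      gcongr
    linarith

lemma pos_case (hF : S_FDT) (k P : ℕ) (t : ℝ) (hk : 2 ≤ k) (hP : 1 ≤ P) (ht : 0 < t) :
    ∫ θ in (0 : ℝ)..1, ‖S k P t θ‖ ^ 2 ≤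
      3 * P + (1 + Real.log (3 * P)) / (t * (P : ℝ) ^ (k - 2)) := by
  have hPr : (1 : ℝ) ≤ P := by exact_mod_cast hP
  set F : ℕ → ℕ → ℝ := fun x y => ∫ θ in (0 : ℝ)..1,
    (e (t * ((x : ℝ) + θ) ^ k - t * ((y : ℝ) + θ) ^ k)).re with hFdef
  have hc : ∀ x y : ℕ, Continuous fun θ : ℝ => (e (t * ((x : ℝ) + θ) ^ k - t * ((y : ℝ) + θ) ^ k)).re := by
    intro x y
    exact Complex.continuous_re.comp (e_cont.comp (by fun_prop))
  have h1 : ∫ θ in (0 : ℝ)..1, ‖S k P t θ‖ ^ 2 = ∑ x ∈ Ico P (4 * P), ∑ y ∈ Ico P (4 * P), F x y := by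
    have : ∀ θ : ℝ, ‖S k P t θ‖ ^ 2 = ∑ x ∈ Ico P (4 * P), ∑ y ∈ Ico P (4 * P),
        (e (t * ((x : ℝ) + θ) ^ k - t * ((y : ℝ) + θ) ^ k)).re := fun θ => norm_sq_sum _ _
    simp_rw [this]
    rw [intervalIntegral.integral_finset_sum]
    · apply Finset.sum_congr rfl
      intro x _
      rw [intervalIntegral.integral_finset_sum]
      intro y _
      exact (hc x y).intervalIntegrable _ _
    · intro x _
      exact (continuous_finset_sum _ (fun y _ => hc x y)).intervalIntegrable _ _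
  have hs : ∀ x y, F x y = F y x := by
    intro x y
    simp only [hFdef]
    apply intervalIntegral.integral_congr
    intro θ _
    simp only
    rw [← e_re_neg]
    congr 2
    ring
  have hd : ∀ x, F x x = 1 := by
    intro x
    simp only [hFdef, sub_self, e_zero_re]
    simp
  rw [h1, double_sum F hs, group_sum F]
  have h2 : ∑ x ∈ Ico P (4 * P), F x x = 3 * P := by
    rw [Finset.sum_congr rfl (fun x _ => hd x)]
    simp only [sum_const, Nat.card_Ico, nsmul_eq_mul, mul_one]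
    have : 4 * P - P = 3 * P := by omega
    rw [this]; push_cast; ring
  rw [h2]
  have h3 : ∑ h ∈ Ico 1 (4 * P - P), ∑ y ∈ Ico P (4 * P - h), F (y + h) y
      ≤ ∑ h ∈ Ico 1 (4 * P - P), 1 / (2 * t * h * (P : ℝ) ^ (k - 2)) := by
    apply Finset.sum_le_sum
    intro h hh
    rw [mem_Ico] at hh
    exact one_h hF k P h t hk hP ht hh.1 (by omega)
  have h4 : ∑ h ∈ Ico 1 (4 * P - P), 1 / (2 * t * (h : ℝ) * (P : ℝ) ^ (k - 2))
      = 1 / (2 * (t * (P : ℝ) ^ (k - 2))) * ∑ h ∈ Ico 1 (4 * P - P), ((h : ℝ))⁻¹ := by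
    rw [Finset.mul_sum]
    apply Finset.sum_congr rfl
    intro h hh
    rw [mem_Ico] at hh
    have : (h : ℝ) ≠ 0 := by
      have : h ≠ 0 := by omega
      exact_mod_cast this
    have hp : (P : ℝ) ^ (k - 2) ≠ 0 := by positivity
    field_simp
  have h5 : ∑ h ∈ Ico 1 (4 * P - P), ((h : ℝ))⁻¹ ≤ 1 + Real.log (3 * P) := by
    have h6 : (4 * P - P) = 3 * P := by omega
    rw [h6]
    have h7 : ∑ h ∈ Ico 1 (3 * P), ((h : ℝ))⁻¹ ≤ (harmonic (3 * P) : ℝ) := by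
      rw [harmonic_eq_sum_Icc]
      push_cast
      apply Finset.sum_le_sum_of_subset_of_nonneg
      · intro x hx
        rw [mem_Ico] at hx
        rw [mem_Icc]
        omega
      · intro x _ _
        positivity
    refine h7.trans ?_
    have := harmonic_le_one_add_log (3 * P)
    push_cast at this
    exact this
  have hT : 0 < t * (P : ℝ) ^ (k - 2) := by positivity
  have h8 : 2 * ∑ h ∈ Ico 1 (4 * P - P), ∑ y ∈ Ico P (4 * P - h), F (y + h) y
      ≤ (1 + Real.log (3 * P)) / (t * (P : ℝ) ^ (k - 2)) := by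
    calc 2 * ∑ h ∈ Ico 1 (4 * P - P), ∑ y ∈ Ico P (4 * P - h), F (y + h) y
        ≤ 2 * (1 / (2 * (t * (P : ℝ) ^ (k - 2))) * (1 + Real.log (3 * P))) := by
          refine mul_le_mul_of_nonneg_left ?_ (by norm_num)
          refine h3.trans ?_
          rw [h4]
          exact mul_le_mul_of_nonneg_left h5 (by positivity)
      _ = _ := by field_simp
  linarith

lemma S_neg (k P : ℕ) (t θ : ℝ) : ‖S k P (-t) θ‖ ^ 2 = ‖S k P t θ‖ ^ 2 := by
  unfold S
  rw [norm_sq_sum (Ico P (4 * P)) (fun x => -t * ((x : ℝ) + θ) ^ k),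
    norm_sq_sum (Ico P (4 * P)) (fun x => t * ((x : ℝ) + θ) ^ k)]
  apply Finset.sum_congr rfl
  intro x _
  apply Finset.sum_congr rfl
  intro y _
  rw [← e_re_neg]
  congr 2
  ring

end SQ621

theorem t_SQ (h : S_FDT) : S_SQ := by
  intro k P t hk hP ht
  rcases lt_or_gt_of_ne ht with h1 | h1
  · have h2 := SQ621.pos_case h k P (-t) hk hP (by linarith)
    simp_rw [SQ621.S_neg] at h2
    rw [abs_of_neg h1]
    exact h2
  · rw [abs_of_pos h1]
    exact SQ621.pos_case h k P t hk hP h1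

end Pool.Agent.W203.WS
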